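import Pool.Agent.Lib.MP_601e9e_an.Cv.Main

/-!
Every bounded smooth strongly convex domain has, for every `k`, a holomorphic embedding of class
`C^k` up to the boundary with any prescribed smooth positive length on the boundary and with a
component that is algebraic on no open piece of the boundary.
-/

set_option autoImplicit false

open Complex Metric Set Pool.Agent.Lib.MP_601e9e_an Pool.Agent.Lib.MP_601e9e_an.Cv

namespace Pool.Agent.Results.MP_601e9e_an.ConvexEmbedding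

theorem result (n k : ℕ) (hn : 1 ≤ n) (ρ e : EuclideanSpace ℂ (Fin n) → ℝ)
    (hρ : ContDiff ℝ (⊤ : ℕ∞) ρ)
    (hc : ∀ x v, v ≠ 0 → 0 < fderiv ℝ (fderiv ℝ ρ) x v v)
    (hb : Bornology.IsBounded {x | ρ x ≤ 0}) (hne : ∃ x, ρ x < 0)
    (he : ContDiff ℝ (⊤ : ℕ∞) e) (h0 : ∀ x, ρ x = 0 → 0 < e x) :
    ∃ (N : ℕ) (f : EuclideanSpace ℂ (Fin n) → EuclideanSpace ℂ (Fin N)),
      DifferentiableOn ℂ f {x | ρ x < 0} ∧ ContDiffOn ℝ k f {x | ρ x ≤ 0} ∧
      (∀ x, ρ x = 0 → ‖f x‖ ^ 2 = e x) ∧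
      (∀ c : ℝ, (∀ x, ρ x = 0 → e x ≤ c) → ∀ x, ρ x < 0 → ‖f x‖ ^ 2 < c) ∧
      (∃ L : EuclideanSpace ℂ (Fin N) →L[ℂ] EuclideanSpace ℂ (Fin n), ∀ x, L (f x) = x) ∧
      ∃ j : Fin N, ∀ U : Set (EuclideanSpace ℂ (Fin n)), IsOpen U →
        (U ∩ {x | ρ x = 0}).Nonempty → ∀ P : MvPolynomial (Option (Fin n)) ℂ,
          (∀ z ∈ U ∩ {x | ρ x = 0},
            MvPolynomial.eval (fun o => Option.elim o (f z j) fun i => z i) P = 0) → P = 0 := by
  let A : EuclideanSpace ℂ (Fin n) ≃L[ℂ] Vs n := EuclideanSpace.equiv (Fin n) ℂ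
  let B : Vs n →L[ℝ] EuclideanSpace ℂ (Fin n) := (A.symm : _ →L[ℂ] _).restrictScalars ℝ
  let A' : EuclideanSpace ℂ (Fin n) →L[ℝ] Vs n := (A : _ →L[ℂ] _).restrictScalars ℝ
  have hBA : ∀ x, B (A x) = x := fun x => A.symm_apply_apply x
  obtain ⟨R, K, hC⟩ := exists_Cvx (ρ := fun y => ρ (B y)) (hρ.comp B.contDiff)
    (fun x v hv => by
      rw [hess_comp hρ B]
      exact hc _ _ fun h => hv (A.symm.map_eq_zero_iff.1 h))
    ((A'.lipschitz.isBounded_image hb).subset fun y hy => ⟨B y, hy, A.apply_symm_apply y⟩)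
    (hne.elim fun x hx => ⟨A x, by rwa [hBA]⟩)
  obtain ⟨K', hG⟩ := hC.geo
  let j₀ : Fin n := ⟨0, hn⟩
  obtain ⟨N, c, j, g, hc0, hg1, hg2, hg3, hg4⟩ := hG.complete hn k (e := fun y => e (B y))
    (he.comp B.contDiff) (fun x hx => h0 _ hx)
    (H := fun y (o : Option (Fin n)) => o.elim (cexp (y j₀)) fun i => y i)
    (contDiff_pi.2 (by
      rintro (_ | i)
      · exact (contDiff_apply ℂ ℂ j₀).cexp
      · exact contDiff_apply ℂ ℂ i))
  have hd : DifferentiableOn ℂ (fun x => g (A x)) {x | ρ x < 0} :=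
    hg1.comp A.differentiable.differentiableOn fun x (hx : ρ x < 0) =>
      show ρ (B (A x)) < 0 by rwa [hBA]
  have hk : ContDiffOn ℝ k (fun x => g (A x)) {x | ρ x ≤ 0} :=
    hg2.comp A'.contDiff.contDiffOn fun x (hx : ρ x ≤ 0) =>
      show ρ (B (A x)) ≤ 0 by rwa [hBA]
  have hs : ∀ x, ρ x = 0 → ‖g (A x)‖ ^ 2 = e x := fun x hx => by
    rw [hg3 (A x) (by rwa [hBA]), hBA]
  let L : EuclideanSpace ℂ (Fin N) →L[ℂ] EuclideanSpace ℂ (Fin n) :=
    (A.symm : _ →L[ℂ] _).comp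
      (ContinuousLinearMap.pi fun i => c⁻¹ • EuclideanSpace.proj (j (some i)))
  have hL : ∀ x, L (g (A x)) = x := fun x => by
    ext i
    change c⁻¹ * g (A x) (j (some i)) = x i
    rw [hg4, inv_mul_cancel_left₀ hc0]
    rfl
  have : Nonempty (Fin n) := ⟨j₀⟩
  refine ⟨N, fun x => g (A x), hd, hk, hs, fun b hb' x hx => strict_max hρ.continuous hb hd
    hk.continuousOn (fun y _ z _ h => by rw [← hL y, ← hL z]; exact congrArg L h)
    (fun y hy => (hs y hy).trans_le (hb' y hy)) hx, ⟨L, hL⟩, j none, fun U hU hU' P hP => ?_⟩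
  obtain ⟨x, hx, hx'⟩ := hU'
  refine hG.transcendental j₀ hc0 (hU.preimage B.continuous)
    ⟨A x, show B (A x) ∈ U by rwa [hBA], show ρ (B (A x)) = 0 by rwa [hBA]⟩ P fun y hy => ?_
  have h1 := hP (B y) hy
  have h2 : g (A (B y)) (j none) = c * cexp (y j₀) := by
    rw [show A (B y) = y from A.apply_symm_apply y, hg4]
    rfl
  rw [← h2]
  exact h1

end Pool.Agent.Results.MP_601e9e_an.ConvexEmbedding
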