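import Pool.Agent.Lib.MP_601e9e_an.Cv.Loc4

/-!
Every smooth generic strongly pseudoconvex CR manifold has, locally and for every `k`, a CR
embedding of class `C^k` into a sphere with a component that is algebraic on no open piece.
-/

set_option autoImplicit false

namespace Pool.Agent.Results.MP_601e9e_an.EverySource

/-- the first differential of `ρ` at `p` -/
noncomputable def D1 {n d : ℕ} (ρ : (Fin n → ℂ) → Fin d → ℝ) (p v : Fin n → ℂ) : Fin d → ℝ :=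
  fderiv ℝ ρ p v

/-- four times the Levi form of the components of `ρ` at `p` -/
noncomputable def levi {n d : ℕ} (ρ : (Fin n → ℂ) → Fin d → ℝ) (p v : Fin n → ℂ) : Fin d → ℝ :=
  fderiv ℝ (fderiv ℝ ρ) p v v + fderiv ℝ (fderiv ℝ ρ) p (Complex.I • v) (Complex.I • v)

theorem result (n d k : ℕ) (ρ : (Fin n → ℂ) → Fin d → ℝ) (hρ : ContDiff ℝ (⊤ : ℕ∞) ρ)
    (p : Fin n → ℂ) (hp : ρ p = 0)
    (hg : Function.Surjective fun v : Fin n → ℂ => (D1 ρ p v, D1 ρ p (Complex.I • v)))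
    (c : Fin d → ℝ) (hc : c ≠ 0)
    (hL : ∀ v : Fin n → ℂ, v ≠ 0 → D1 ρ p v = 0 → D1 ρ p (Complex.I • v) = 0 →
      0 < ∑ j, c j * levi ρ p v j) :
    ∃ (U : Set (Fin n → ℂ)) (N : ℕ) (f : (Fin n → ℂ) → Fin N → ℂ), IsOpen U ∧ p ∈ U ∧
      ContDiffOn ℝ k f (U ∩ {z | ρ z = 0}) ∧ DifferentiableOn ℂ f (U ∩ {z | ρ z = 0}) ∧
      (∀ z ∈ U ∩ {z | ρ z = 0}, ∑ j, ‖f z j‖ ^ 2 = 1) ∧
      (∃ L : (Fin N → ℂ) →L[ℂ] (Fin n → ℂ), ∀ z, L (f z) = z) ∧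
      ∃ j : Fin N, ∀ V : Set (Fin n → ℂ), IsOpen V → (V ∩ (U ∩ {z | ρ z = 0})).Nonempty →
        ∀ P : MvPolynomial (Option (Fin n)) ℂ, (∀ z ∈ V ∩ (U ∩ {z | ρ z = 0}),
          MvPolynomial.eval (fun o => Option.elim o (f z j) fun i => z i) P = 0) → P = 0 :=
  Pool.Agent.Lib.MP_601e9e_an.Cv.loc_main k hρ hp hg hc hL

end Pool.Agent.Results.MP_601e9e_an.EverySource
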