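import Pool.Agent.Lib.MP_601e9e_an.Rg.Ball2

open Set Metric

namespace Pool.Agent.Results.MP_601e9e_an.HolderRational

theorem result (n N k K e : ℕ) (hn : 2 ≤ n) (he : e ≤ 1)
    (hN : N ≤ K * (n - 1) + 1 + e ∨ (2 ≤ K ∧ N + 3 ≤ n * (n + 1) / 2 + K + e))
    (C θ : NNReal) (hθ : θ ≤ 1) (h1 : (5 : ℝ) / 6 < k + θ) (h2 : (K : ℝ) / 2 + e / 4 < k + θ)
    (x₀ : EuclideanSpace ℂ (Fin n)) (hx₀ : ‖x₀‖ = 1) (ρ : ℝ) (hρ : 0 < ρ)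
    (F : EuclideanSpace ℂ (Fin n) → EuclideanSpace ℂ (Fin N))
    (hF : DifferentiableOn ℂ F (ball 0 1 ∩ ball x₀ ρ))
    (hc : ContinuousOn F (closedBall 0 1 ∩ ball x₀ ρ))
    (hs : ∀ x ∈ sphere 0 1 ∩ ball x₀ ρ, ‖F x‖ = 1)
    (hH : HolderOnWith C θ (iteratedFDeriv ℂ k F) (ball 0 1 ∩ ball x₀ ρ)) :
    ∃ (q : MvPolynomial (Fin n) ℂ) (P : Fin N → MvPolynomial (Fin n) ℂ), q ≠ 0 ∧
      q.totalDegree ≤ ((N - 1) / (n - 1) + 1) * ((N - 1) / (n - 1)) / 2 ∧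
      (∀ a, (P a).totalDegree ≤ ((N - 1) / (n - 1) + 1) * ((N - 1) / (n - 1)) / 2) ∧
      ∀ x ∈ ball (0 : EuclideanSpace ℂ (Fin n)) 1 ∩ ball x₀ ρ, ∀ a,
        MvPolynomial.eval (fun i => x i) q * F x a = MvPolynomial.eval (fun i => x i) (P a) := by
  obtain ⟨m, rfl⟩ : ∃ m, n = m + 1 := ⟨n - 1, by omega⟩
  refine Pool.Agent.Lib.MP_601e9e_an.Rg.ball_main2 k K e (by omega) he ?_ hθ h2 h1 hx₀ hρ hF hc
    hs hH
  have h3 : (m + 2).choose 2 = (m + 1) * (m + 1 + 1) / 2 := by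
    rw [Nat.choose_two_right, mul_comm]
    rfl
  rcases hN with hN | hN
  · left
    rw [Nat.add_sub_cancel, mul_comm] at hN
    omega
  · right
    rwa [h3]

end Pool.Agent.Results.MP_601e9e_an.HolderRational
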