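import Pool.Agent.Lib.MP_601e9e_an.Rg.Ball2

open Set Metric

namespace Pool.Agent.Results.MP_601e9e_an.LipschitzRational

theorem result (n N k : ℕ) (hn : 2 ≤ n) (hk : 1 ≤ k)
    (hN : N ≤ max (2 * k * (n - 1) + 1) (n * (n + 1) / 2 + 2 * k - 3))
    (x₀ : EuclideanSpace ℂ (Fin n)) (hx₀ : ‖x₀‖ = 1) (ρ : ℝ) (hρ : 0 < ρ)
    (F : EuclideanSpace ℂ (Fin n) → EuclideanSpace ℂ (Fin N))
    (hF : DifferentiableOn ℂ F (ball 0 1 ∩ ball x₀ ρ))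
    (hc : ContinuousOn F (closedBall 0 1 ∩ ball x₀ ρ))
    (hs : ∀ x ∈ sphere 0 1 ∩ ball x₀ ρ, ‖F x‖ = 1)
    (hb : ∃ C : ℝ, ∀ i ≤ k, ∀ x ∈ ball 0 1 ∩ ball x₀ ρ, ‖iteratedFDeriv ℂ i F x‖ ≤ C) :
    ∃ (q : MvPolynomial (Fin n) ℂ) (P : Fin N → MvPolynomial (Fin n) ℂ), q ≠ 0 ∧
      q.totalDegree ≤ ((N - 1) / (n - 1) + 1) * ((N - 1) / (n - 1)) / 2 ∧
      (∀ a, (P a).totalDegree ≤ ((N - 1) / (n - 1) + 1) * ((N - 1) / (n - 1)) / 2) ∧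
      ∀ x ∈ ball (0 : EuclideanSpace ℂ (Fin n)) 1 ∩ ball x₀ ρ, ∀ a,
        MvPolynomial.eval (fun i => x i) q * F x a = MvPolynomial.eval (fun i => x i) (P a) := by
  obtain ⟨m, rfl⟩ : ∃ m, n = m + 1 := ⟨n - 1, by omega⟩
  refine Pool.Agent.Lib.MP_601e9e_an.Rg.ball_main1 k (by omega) hk ?_ hx₀ hρ hF hc hs hb
  have h1 : (m + 2).choose 2 = (m + 1) * (m + 1 + 1) / 2 := by
    rw [Nat.choose_two_right, mul_comm]
    rfl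
  have h2 : 3 ≤ (m + 1) * (m + 1 + 1) / 2 := by
    refine (Nat.le_div_iff_mul_le two_pos).2 ?_
    nlinarith
  rcases le_max_iff.1 hN with h | h
  · left
    rwa [Nat.add_sub_cancel, mul_comm] at h
  · right
    omega

end Pool.Agent.Results.MP_601e9e_an.LipschitzRational
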